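import Pool.Agent.H288Z.Skew

set_option autoImplicit false

namespace Pool.Agent.Results.MP_e40659_an.LinearCounter

open Filter Topology

/-- A skew product as in the problem whose stable set in the fibre is not the image of an injective
holomorphic map from the complex plane squared. -/
theorem result : ∃ (d : ℕ) (G : ℂ × ℂ × ℂ → ℂ × ℂ) (p₁ : ℂ), 2 ≤ d ∧ Differentiable ℂ G ∧
    (∀ l : ℂ, ‖l‖ = 1 →
      (∃ H : ℂ × ℂ → ℂ × ℂ, Differentiable ℂ H ∧ Function.LeftInverse H (fun w => G (l, w)) ∧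
        Function.RightInverse H fun w => G (l, w)) ∧ G (l, 0) = 0 ∧
      ∀ μ : ℂ, Module.End.HasEigenvalue
        (fderiv ℂ (fun w => G (l, w)) 0 : ℂ × ℂ →ₗ[ℂ] ℂ × ℂ) μ → ‖μ‖ < 1) ∧
    ‖p₁‖ = 1 ∧
    ¬ ∃ Φ : ℂ × ℂ → ℂ × ℂ, Differentiable ℂ Φ ∧ Function.Injective Φ ∧
      Set.range Φ = {w | Tendsto (fun n : ℕ =>
        ‖(fun z : ℂ × ℂ × ℂ => (z.1 ^ d, G z))^[n] (p₁, w) -
          (fun z : ℂ × ℂ × ℂ => (z.1 ^ d, G z))^[n] (p₁, 0)‖) atTop (𝓝 0)} := by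
  refine ⟨3, Pool.Agent.H288Z.Skew.G, Complex.I, by norm_num, Pool.Agent.H288Z.Skew.G_diff,
    fun l _ => ⟨Pool.Agent.H288Z.Skew.inv l, Pool.Agent.H288Z.Skew.G_zero l,
      Pool.Agent.H288Z.Skew.eig l⟩, Complex.norm_I, ?_⟩
  rintro ⟨Φ, hΦ, hinj, hr⟩
  have h1 : ∀ u, (Φ u).1 = 2 * (Φ u).2 := fun u => by
    have h2 : Φ u ∈ Set.range Φ := ⟨u, rfl⟩
    rw [hr] at h2
    exact Pool.Agent.H288Z.Skew.stable _ h2
  refine Pool.Agent.H288Z.Skew.no_inj (fun u => (Φ u).2) hΦ.snd fun u v h => hinj ?_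
  have h3 : (Φ u).2 = (Φ v).2 := h
  exact Prod.ext (by rw [h1, h1, h3]) h3

end Pool.Agent.Results.MP_e40659_an.LinearCounter
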